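import Pool.Agent.H68.QT.Targets
import Pool.Agent.H68.QC.Fin

/-!
# Towers of quantum algorithms and quantifiers: the final theorem
-/

set_option autoImplicit false

namespace Pool.Agent.H68.QT

open Finset Filter Pool.Agent.H6.NB Pool.Agent.H70.OQ Pool.Agent.H70.RK Pool.Agent.H70.RC
open Pool.Agent.H68.QC
open Pool.Agent.H70.RW (SimK yesW inw T_FNU)
open Pool.Agent.H78.OY (PCorrect)

/-- a tower which is right depends only on short strings -/
theorem right_locT (hL : T_TLC) (hS : T_SCX) {j : ℕ} (M : TMach j) (n l N c : ℕ)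
    (hN : N = nod n l) (h1 : 1 ≤ n) (hc : M.c ≤ c) (hc1 : 1 ≤ c) (O O' : List Bool → Bool)
    (h : ∀ w : List Bool, w.length ≤ N ^ c + c → O w = O' w) :
    M.Right O (hlang l O) (List.replicate n false) →
      M.Right O' (hlang l O') (List.replicate n false) := by
  have hnN : n ≤ N := hN ▸ le_nod n l
  have hN1 : 1 ≤ N := h1.trans hnN
  have hl := hlang_loc hS l n O O' (fun w hw => h w (hw.trans (by
    rw [← hN]
    exact add_le_add (Nat.le_self_pow (by omega) N) hc1)))
  have hs := M.small (List.replicate n false)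
  have hm := hL _ _ _ _ hs
  have hO : ∀ w : List Bool, w.length ≤ (List.replicate n false).length ^ M.c + M.c →
      O w = O' w := by
    intro w hw
    rw [List.length_replicate] at hw
    exact h w (hw.trans (pow_mono_cost hnN hN1 hc))
  exact fun hr => ⟨fun hx => hm.1 O O' hO (hr.1 (hl.2 hx)),
    fun hx => hm.2 O O' hO (hr.2 fun hy => hx (hl.1 hy))⟩

section

variable (k : ℕ) (j a : ℕ → ℕ) (U : ∀ i, QMach (j i)) (M : ∀ i, TMach (a i))
  (R : ℕ → List Bool → Set QAlg)

/-- the tests -/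
def tst (J N : ℕ) (O : List Bool → Bool) : Prop :=
  if J % 4 = 0 then ∀ r, N = nod (2 ^ r) (k + j (J / 4)) →
    (U (J / 4)).Right O (hlang (k + j (J / 4)) O) (List.replicate (2 ^ r) false)
  else if J % 4 = 1 then ∀ r b, j (J / 4) = b + 1 → N = nod (3 * 2 ^ r) (k + b) →
    (U (J / 4)).Right O (hlang (k + b) O)ᶜ (List.replicate (3 * 2 ^ r) false)
  else if J % 4 = 2 then ∀ r, N = nod (2 ^ r) (k + a (J / 4)) →
    (M (J / 4)).Right O (hlang (k + a (J / 4)) O) (List.replicate (2 ^ r) false)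
  else ∀ r, N = nod (3 * 2 ^ r) k →
    PCorrect (R (J / 4) (List.replicate (3 * 2 ^ r) false)) O (hlang k O)ᶜ
      (List.replicate (3 * 2 ^ r) false)

/-- the sets of sections -/
def sst (J : ℕ) : Set ℕ :=
  if J % 4 = 0 then {N | ∃ r, N = nod (2 ^ r) (k + j (J / 4))}
  else if J % 4 = 1 then {N | ∃ r b, j (J / 4) = b + 1 ∧ N = nod (3 * 2 ^ r) (k + b)}
  else if J % 4 = 2 then {N | ∃ r, N = nod (2 ^ r) (k + a (J / 4))}
  else {N | ∃ r, N = nod (3 * 2 ^ r) k}

end

theorem tst_loc (hL : T_LCY) (hTL : T_TLC) (hS : T_SCX) (hLOC : Pool.Agent.H70.RC.T_LOC) (k : ℕ)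
    (j a : ℕ → ℕ) (U : ∀ i, QMach (j i)) (M : ∀ i, TMach (a i)) (R : ℕ → List Bool → Set QAlg)
    (hR : ∀ i, ∃ (c C : ℕ) (ε : ℝ), 0 < ε ∧ ∀ x : List Bool, ∀ A ∈ R i x,
      A.Short (x.length ^ c + c) ∧ (A.T : ℝ) ≤ C * 2 ^ ((1 / 2 - ε) * x.length)) (J : ℕ) :
    ∃ c, ∀ N O O', (∀ w : List Bool, w.length ≤ N ^ c + c → O w = O' w) →
      tst k j a U M R J N O → tst k j a U M R J N O' := by
  obtain ⟨cR, CR, εR, _, hR'⟩ := hR (J / 4)
  refine ⟨max (max (max (U (J / 4)).c (M (J / 4)).c) cR) 1, fun N O O' hO ht => ?_⟩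
  have hcU : (U (J / 4)).c ≤ max (max (max (U (J / 4)).c (M (J / 4)).c) cR) 1 :=
    ((le_max_left _ _).trans (le_max_left _ _)).trans (le_max_left _ _)
  have hcM : (M (J / 4)).c ≤ max (max (max (U (J / 4)).c (M (J / 4)).c) cR) 1 :=
    ((le_max_right _ _).trans (le_max_left _ _)).trans (le_max_left _ _)
  have hcR : cR ≤ max (max (max (U (J / 4)).c (M (J / 4)).c) cR) 1 :=
    (le_max_right _ _).trans (le_max_left _ _)
  have hc1 : 1 ≤ max (max (max (U (J / 4)).c (M (J / 4)).c) cR) 1 := le_max_right _ _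
  unfold tst at ht ⊢
  split_ifs at ht ⊢ with h0 h1 h2
  · intro r hN
    exact (right_loc hL hS (U (J / 4)) (2 ^ r) _ N _ hN (Nat.one_le_two_pow) hcU hc1 O O' hO).1
      (ht r hN)
  · intro r b hb hN
    exact (right_loc hL hS (U (J / 4)) (3 * 2 ^ r) _ N _ hN (Nat.mul_pos (by norm_num)
      (Nat.two_pow_pos r)) hcU hc1 O O' hO).2 (ht r b hb hN)
  · intro r hN
    exact right_locT hTL hS (M (J / 4)) (2 ^ r) _ N _ hN (Nat.one_le_two_pow) hcM hc1 O O' hO
      (ht r hN)
  · intro r hN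
    have h3 : 1 ≤ 3 * 2 ^ r := Nat.mul_pos (by norm_num) (Nat.two_pow_pos r)
    have hnN : 3 * 2 ^ r ≤ N := hN ▸ le_nod _ k
    have hN1 : 1 ≤ N := h3.trans hnN
    have hl := hlang_loc hS k (3 * 2 ^ r) O O' (fun w hw => hO w (hw.trans (by
      rw [← hN]
      exact add_le_add (Nat.le_self_pow (by omega) N) hc1)))
    have hp : ∀ A ∈ R (J / 4) (List.replicate (3 * 2 ^ r) false), A.prob O = A.prob O' := by
      intro A hA
      have hs := (hR' _ A hA).1
      rw [List.length_replicate] at hs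
      exact (hLOC A).2 _ O O' hs fun w hw => hO w (hw.trans (pow_mono_cost hnN hN1 hcR))
    obtain ⟨t1, t2⟩ := ht r hN
    refine ⟨fun hx => ?_, fun hx A hA => ?_⟩
    · obtain ⟨A, hA, hp'⟩ := t1 fun hy => hx (hl.1 hy)
      exact ⟨A, hA, hp A hA ▸ hp'⟩
    · rw [← hp A hA]
      exact t2 (fun hy => hx fun hz => hy (hl.2 hz)) A hA

theorem pf_FNT (hFNU : T_FNU) (hFAL : T_FAL) (hAVJ : T_AVJ) (hAVF : T_AVF) (hAVR : T_AVR)
    (hAVT : T_AVT) (hAMN : T_AMN) (hL : T_LCY) (hTL : T_TLC) (hS : T_SCX)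
    (hLOC : Pool.Agent.H70.RC.T_LOC) : T_FNT := by
  intro k hk V j a U M R hR
  obtain ⟨hne, hf1, hf3, hone⟩ := hFAL
  obtain ⟨O, hsec, hyes, hsim, _, _, _⟩ := hFNU (fun _ => k) (fun _ => hk) fAll hne V
    (tst k j a U M R) (fun _ _ => nul) (fun _ _ => ∅) (fun _ _ _ => false) (sst k j a)
    (tst_loc hL hTL hS hLOC k j a U M R hR)
    (fun _ => ⟨0, fun n => ⟨Nat.zero_le _, fun i w h => by cases h⟩⟩)
    (fun _ => ⟨0, fun n A hA => absurd hA (Set.notMem_empty _)⟩)
    (fun _ => ⟨0, 0, fun n => ac_false _⟩)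
  refine ⟨O, hyes, hone O hsec, fun i m => ?_, fun i m => ?_, fun i b m hja => ?_, fun i m => ?_⟩
  · by_contra hcon
    push Not at hcon
    have hd : 4 * i % 4 = 0 := by omega
    have hq : 4 * i / 4 = i := by omega
    have hev : ∀ᶠ N in atTop, N ∈ sst k j a (4 * i) → tst k j a U M R (4 * i) N O := by
      filter_upwards [eventually_ge_atTop (2 ^ (k + j i + 1) * m)] with N hN hNS
      unfold tst
      rw [if_pos hd, hq]
      intro r hr
      refine hcon (2 ^ r) ?_ ⟨r, rfl⟩
      by_contra hlt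
      push Not at hlt
      have h1 : N ≤ 2 ^ (k + j i + 1) * 2 ^ r := hr ▸ nod_le _ _
      have h2 : 2 ^ (k + j i + 1) * 2 ^ r < 2 ^ (k + j i + 1) * m :=
        Nat.mul_lt_mul_of_pos_left hlt (Nat.two_pow_pos _)
      omega
    obtain ⟨_, c, hc⟩ := hsim (4 * i) hev
    refine core hAMN k (k + j i) 1 le_rfl (U i).c (tst k j a U M R (4 * i)) (sst k j a (4 * i))
      (fun n O => (List.replicate n false ∈ hlang (k + j i) O →
          Yes (n ^ (U i).c + (U i).c) (j i) ((U i).alg (List.replicate n false)) O) ∧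
        (List.replicate n false ∉ hlang (k + j i) O →
          No (n ^ (U i).c + (U i).c) (j i) ((U i).alg (List.replicate n false)) O))
      (fun n => fX (k + j i) n (nod n (k + j i))) (fun r => ?_) (fun r O' ht => ?_) (fun r => ?_)
      (fun c' => ?_) ⟨c, hc⟩
    · unfold sst
      rw [if_pos hd, hq, one_mul]
      exact ⟨r, rfl⟩
    · unfold tst at ht
      rw [if_pos hd, hq, one_mul] at ht
      obtain ⟨t1, t2⟩ := ht r rfl
      rw [one_mul]
      exact ⟨fun hx => (yes_iff _ _ _).1 (t1 hx), fun hx => (no_iff _ _ _).1 (t2 hx)⟩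
    · rw [one_mul]
      exact hf1 (k + j i) r (by omega)
    · filter_upwards [hAVJ k (j i) c' (U i).C (U i).ε hk (U i).ε_pos] with n hn mw m' hmw hm' he
      subst he
      exact hn _ m' _ hmw hm' (adm_of (U i) n)
  · by_contra hcon
    push Not at hcon
    have hd0 : ¬ (4 * i + 2) % 4 = 0 := by omega
    have hd1 : ¬ (4 * i + 2) % 4 = 1 := by omega
    have hd : (4 * i + 2) % 4 = 2 := by omega
    have hq : (4 * i + 2) / 4 = i := by omega
    have hev : ∀ᶠ N in atTop, N ∈ sst k j a (4 * i + 2) → tst k j a U M R (4 * i + 2) N O := by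
      filter_upwards [eventually_ge_atTop (2 ^ (k + a i + 1) * m)] with N hN hNS
      unfold tst
      rw [if_neg hd0, if_neg hd1, if_pos hd, hq]
      intro r hr
      refine hcon (2 ^ r) ?_ ⟨r, rfl⟩
      by_contra hlt
      push Not at hlt
      have h1 : N ≤ 2 ^ (k + a i + 1) * 2 ^ r := hr ▸ nod_le _ _
      have h2 : 2 ^ (k + a i + 1) * 2 ^ r < 2 ^ (k + a i + 1) * m :=
        Nat.mul_lt_mul_of_pos_left hlt (Nat.two_pow_pos _)
      omega
    obtain ⟨_, c, hc⟩ := hsim (4 * i + 2) hev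
    refine core hAMN k (k + a i) 1 le_rfl (M i).c (tst k j a U M R (4 * i + 2))
      (sst k j a (4 * i + 2))
      (fun n O => (List.replicate n false ∈ hlang (k + a i) O →
          Acc (n ^ (M i).c + (M i).c) (a i) ((M i).tow (List.replicate n false)) O) ∧
        (List.replicate n false ∉ hlang (k + a i) O →
          Rej (n ^ (M i).c + (M i).c) (a i) ((M i).tow (List.replicate n false)) O))
      (fun n => fX (k + a i) n (nod n (k + a i))) (fun r => ?_) (fun r O' ht => ?_) (fun r => ?_)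
      (fun c' => ?_) ⟨c, hc⟩
    · unfold sst
      rw [if_neg hd0, if_neg hd1, if_pos hd, hq, one_mul]
      exact ⟨r, rfl⟩
    · unfold tst at ht
      rw [if_neg hd0, if_neg hd1, if_pos hd, hq, one_mul] at ht
      obtain ⟨t1, t2⟩ := ht r rfl
      rw [List.length_replicate] at t1 t2
      rw [one_mul]
      exact ⟨fun hx => t1 hx, fun hx => t2 hx⟩
    · rw [one_mul]
      exact hf1 (k + a i) r (by omega)
    · filter_upwards [hAVT k (a i) c' (M i).C (M i).ε hk (M i).ε_pos] with n hn mw m' hmw hm' he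
      subst he
      refine hn _ m' _ hmw hm' ?_
      have h := (M i).small (List.replicate n false)
      rw [List.length_replicate] at h
      exact h
  · by_contra hcon
    push Not at hcon
    have hd0 : ¬ (4 * i + 1) % 4 = 0 := by omega
    have hd : (4 * i + 1) % 4 = 1 := by omega
    have hq : (4 * i + 1) / 4 = i := by omega
    have hev : ∀ᶠ N in atTop, N ∈ sst k j a (4 * i + 1) → tst k j a U M R (4 * i + 1) N O := by
      filter_upwards [eventually_ge_atTop (2 ^ (k + b + 1) * m)] with N hN hNS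
      unfold tst
      rw [if_neg hd0, if_pos hd, hq]
      intro r b' hb' hr
      obtain rfl : b' = b := by omega
      refine hcon (3 * 2 ^ r) ?_
      by_contra hlt
      push Not at hlt
      have h1 : N ≤ 2 ^ (k + b' + 1) * (3 * 2 ^ r) := hr ▸ nod_le _ _
      have h2 : 2 ^ (k + b' + 1) * (3 * 2 ^ r) < 2 ^ (k + b' + 1) * m :=
        Nat.mul_lt_mul_of_pos_left hlt (Nat.two_pow_pos _)
      omega
    obtain ⟨_, c, hc⟩ := hsim (4 * i + 1) hev
    refine core hAMN k (k + b) 3 (by norm_num) (U i).c (tst k j a U M R (4 * i + 1))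
      (sst k j a (4 * i + 1))
      (fun n O => (List.replicate n false ∉ hlang (k + b) O →
          Yes (n ^ (U i).c + (U i).c) (b + 1) ((U i).alg (List.replicate n false)) O) ∧
        (List.replicate n false ∈ hlang (k + b) O →
          No (n ^ (U i).c + (U i).c) (b + 1) ((U i).alg (List.replicate n false)) O))
      (fun n => fR (k + b) n (nod n (k + b))) (fun r => ?_) (fun r O' ht => ?_) (fun r => ?_)
      (fun c' => ?_) ⟨c, hc⟩
    · unfold sst
      rw [if_neg hd0, if_pos hd, hq]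
      exact ⟨r, b, hja, rfl⟩
    · unfold tst at ht
      rw [if_neg hd0, if_pos hd, hq] at ht
      obtain ⟨t1, t2⟩ := ht r b hja rfl
      rw [← hja]
      exact ⟨fun hx => (yes_iff _ _ _).1 (t1 hx),
        fun hx => (no_iff _ _ _).1 (t2 fun hy => hy hx)⟩
    · exact hf3 (k + b) r (by omega)
    · filter_upwards [hAVF k b c' (U i).C (U i).ε hk (U i).ε_pos] with n hn mw m' hmw hm' he
      subst he
      refine hn _ m' _ hmw hm' ?_
      rw [← hja]
      exact adm_of (U i) n
  · by_contra hcon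
    push Not at hcon
    have hd0 : ¬ (4 * i + 3) % 4 = 0 := by omega
    have hd : ¬ (4 * i + 3) % 4 = 1 := by omega
    have hd2 : ¬ (4 * i + 3) % 4 = 2 := by omega
    have hq : (4 * i + 3) / 4 = i := by omega
    have hev : ∀ᶠ N in atTop, N ∈ sst k j a (4 * i + 3) → tst k j a U M R (4 * i + 3) N O := by
      filter_upwards [eventually_ge_atTop (2 ^ (k + 1) * m)] with N hN hNS
      unfold tst
      rw [if_neg hd0, if_neg hd, if_neg hd2, hq]
      intro r hr
      refine hcon (3 * 2 ^ r) ?_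
      by_contra hlt
      push Not at hlt
      have h1 : N ≤ 2 ^ (k + 1) * (3 * 2 ^ r) := hr ▸ nod_le _ _
      have h2 : 2 ^ (k + 1) * (3 * 2 ^ r) < 2 ^ (k + 1) * m :=
        Nat.mul_lt_mul_of_pos_left hlt (Nat.two_pow_pos _)
      omega
    obtain ⟨_, c, hc⟩ := hsim (4 * i + 3) hev
    obtain ⟨cR, CR, εR, hεR, hR'⟩ := hR i
    refine core hAMN k k 3 (by norm_num) cR (tst k j a U M R (4 * i + 3))
      (sst k j a (4 * i + 3))
      (fun n O => (List.replicate n false ∉ hlang k O →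
          YesP (R i (List.replicate n false)) O) ∧
        (List.replicate n false ∈ hlang k O → NoP (R i (List.replicate n false)) O))
      (fun n => fR k n (nod n k)) (fun r => ?_) (fun r O' ht => ?_) (fun r => ?_)
      (fun c' => ?_) ⟨c, hc⟩
    · unfold sst
      rw [if_neg hd0, if_neg hd, if_neg hd2]
      exact ⟨r, rfl⟩
    · unfold tst at ht
      rw [if_neg hd0, if_neg hd, if_neg hd2, hq] at ht
      obtain ⟨t1, t2⟩ := ht r rfl
      exact ⟨fun hx => t1 hx, fun hx => t2 fun hy => hy hx⟩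
    · exact hf3 k r hk
    · filter_upwards [hAVR k c' CR εR hk hεR] with n hn mw m' hmw hm' he
      subst he
      refine hn _ m' _ hmw hm' fun A hA => ?_
      have h := hR' _ A hA
      rw [List.length_replicate] at h
      exact h

end Pool.Agent.H68.QT
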