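import Pool.Agent.H70.QC.Fin
import Pool.Agent.H77.QC.ALT

/-!
# The quantum classical hierarchy relative to an oracle with Σ_k in EQP: the infinite polynomial hierarchy
-/

set_option autoImplicit false

namespace Pool.Agent.H68.QT

open Pool.Agent.H6.NB Pool.Agent.H70.OQ Pool.Agent.H68.QC
open Pool.Agent.H70.RW (yesW inw)
open Pool.Agent.H78.OY (PCorrect)
open Pool.Agent.H70.QC (Poly Yes1 No0)

theorem yes_of {j : ℕ} (U : QMach j) (O : List Bool → Bool) (x : List Bool)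
    (h : Yes1 U O x) : U.Yes O x := by
  unfold Yes1 at h
  unfold QMach.Yes
  refine (Pool.Agent.H77.QC.pf_ALT _ _ _ (fun ws => (U.alg x ws).prob O = 1) _).1
    (fun ws _ _ h1 => ?_) h
  rw [h1]
  norm_num

theorem no_of {j : ℕ} (U : QMach j) (O : List Bool → Bool) (x : List Bool)
    (h : No0 U O x) : U.No O x := by
  unfold No0 at h
  unfold QMach.No
  refine (Pool.Agent.H77.QC.pf_ALT _ _ _ (fun ws => (U.alg x ws).prob O = 0) _).1
    (fun ws _ _ h1 => ?_) h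
  rw [h1]
  norm_num

/-- The final theorem with the inclusions and the infinite polynomial hierarchy. -/
theorem fin2 (h : T_FNT) (k : ℕ) (hk : 1 ≤ k) (V : ℕ → Machine k) (f : ℕ → ℕ)
    (F : ∀ i, Machine (k + f i)) : ∃ G : ∀ i, QMach (f i), (∀ i, Poly (G i)) ∧
    ∀ (j a : ℕ → ℕ) (U : ∀ i, QMach (j i)) (M : ∀ i, TMach (a i))
      (R : ℕ → List Bool → Set QAlg),
      (∀ i, ∃ (c C : ℕ) (ε : ℝ), 0 < ε ∧ ∀ x : List Bool, ∀ A ∈ R i x,
        A.Short (x.length ^ c + c) ∧ (A.T : ℝ) ≤ C * 2 ^ ((1 / 2 - ε) * x.length)) →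
      ∃ O : List Bool → Bool,
        (∀ i x, (x ∈ (V i).lang O → yesW O (inw (V i).c (2 * i) x) = 1) ∧
          (x ∉ (V i).lang O → yesW O (inw (V i).c (2 * i) x) = 0)) ∧
        (∀ i x, (x ∈ (F i).lang O → Yes1 (G i) O x) ∧ (x ∉ (F i).lang O → No0 (G i) O x)) ∧
        (∀ i m, ∃ n ≥ m, ¬ (List.replicate n false ∈ (F i).lang O ↔
          List.replicate n false ∈ hlang (k + f i) O)) ∧
        (∀ l, 1 ≤ l → OneSpecialP l O) ∧
        (∀ i m, ∃ n ≥ m, (∃ r, n = 2 ^ r) ∧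
          ¬ (U i).Right O (hlang (k + j i) O) (List.replicate n false)) ∧
        (∀ i m, ∃ n ≥ m, (∃ r, n = 2 ^ r) ∧
          ¬ (M i).Right O (hlang (k + a i) O) (List.replicate n false)) ∧
        (∀ i b m, j i = b + 1 → ∃ n ≥ m,
          ¬ (U i).Right O (hlang (k + b) O)ᶜ (List.replicate n false)) ∧
        ∀ i m, ∃ n ≥ m, ¬ PCorrect (R i (List.replicate n false)) O (hlang k O)ᶜ
          (List.replicate n false) := by
  obtain ⟨G, hP, hG⟩ := Pool.Agent.H70.QC.fin_SHP h k hk V f F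
  refine ⟨G, hP, fun j a U M R hR => ?_⟩
  let W : ℕ → Σ j, QMach j := fun n =>
    if n % 2 = 0 then ⟨j (n / 2), U (n / 2)⟩ else ⟨f (n / 2), G (n / 2)⟩
  have hW0 : ∀ i, W (2 * i) = ⟨j i, U i⟩ := fun i => by
    have e1 : 2 * i % 2 = 0 := by omega
    have e2 : 2 * i / 2 = i := by omega
    simp only [W, e1, if_true]
    rw [e2]
  have hW1 : ∀ i, W (2 * i + 1) = ⟨f i, G i⟩ := fun i => by
    have e1 : ¬ (2 * i + 1) % 2 = 0 := by omega
    have e2 : (2 * i + 1) / 2 = i := by omega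
    simp only [W]
    rw [if_neg e1, e2]
  obtain ⟨O, h1, h2, h3, h4, h5, h6, h7⟩ := hG (fun n => (W n).1) a (fun n => (W n).2) M R hR
  refine ⟨O, h1, h2, fun i m => ?_, h3, fun i m => ?_, h5, fun i b m hb => ?_, h7⟩
  · have h8 : ∃ n ≥ m, (∃ r, n = 2 ^ r) ∧ ¬ (W (2 * i + 1)).2.Right O
        (hlang (k + (W (2 * i + 1)).1) O) (List.replicate n false) := h4 (2 * i + 1) m
    rw [hW1 i] at h8
    obtain ⟨n, hn, _, h9⟩ := h8
    refine ⟨n, hn, fun h10 => h9 ⟨fun h11 => ?_, fun h11 => ?_⟩⟩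
    · exact yes_of (G i) O _ ((h2 i _).1 (h10.2 h11))
    · exact no_of (G i) O _ ((h2 i _).2 fun h12 => h11 (h10.1 h12))
  · have h8 : ∃ n ≥ m, (∃ r, n = 2 ^ r) ∧ ¬ (W (2 * i)).2.Right O
        (hlang (k + (W (2 * i)).1) O) (List.replicate n false) := h4 (2 * i) m
    rw [hW0 i] at h8
    exact h8
  · have h8 : (W (2 * i)).1 = b + 1 → ∃ n ≥ m, ¬ (W (2 * i)).2.Right O (hlang (k + b) O)ᶜ
        (List.replicate n false) := h6 (2 * i) b m
    rw [hW0 i] at h8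
    exact h8 hb

end Pool.Agent.H68.QT
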