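import Pool.Agent.H68.QC.All
import Pool.Agent.H68.QT.Fin2
import Pool.Agent.H1.QT.BT0
import Pool.Agent.H13.QT.TWM
import Pool.Agent.H3.QT.TWL
import Pool.Agent.H3.QT.TWR
import Pool.Agent.H46.QT.TWF
import Pool.Agent.H54.QT.BTB
import Pool.Agent.H55.QT.QIT
import Pool.Agent.H59.QT.TLC
import Pool.Agent.H65.QT.TJT
import Pool.Agent.H68.QT.Fin
import Pool.Agent.H81.QT.AVT
import Pool.Agent.H90.QT.PAT
import Pool.Agent.H96.QT.BTA

/-!
# Towers of quantum algorithms and quantifiers relative to an oracle with Σ_k in EQP: assembly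
-/

set_option autoImplicit false

namespace Pool.Agent.H68.QT

open Pool.Agent.H68.QC

theorem all_TWL : T_TWL := Pool.Agent.H3.QT.pf_TWL Pool.Agent.H75.LQ.pf_LMQ

theorem all_BTA : T_BTA := Pool.Agent.H96.QT.pf_BTA all_TWL Pool.Agent.H3.QT.pf_TWR
  Pool.Agent.H1.QT.pf_BT0

theorem all_BTB : T_BTB := Pool.Agent.H54.QT.pf_BTB all_TWL Pool.Agent.H3.QT.pf_TWR all_GSL
  Pool.Agent.H42.QC.pf_GST

theorem all_TJT : T_TJT := Pool.Agent.H65.QT.pf_TJT all_BTA all_BTB Pool.Agent.H46.QT.pf_TWF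
  Pool.Agent.H13.QT.pf_TWM Pool.Agent.H59.QT.pf_TLC Pool.Agent.H90.QT.pf_PAT all_STP
  Pool.Agent.H56.QC.pf_CDN

theorem all_AVT : T_AVT := Pool.Agent.H81.QT.pf_AVT all_TJT all_TJ0 Pool.Agent.H18.QC.pf_MKX
  all_FXU Pool.Agent.H46.QC.pf_ARN all_AMN all_SCX

theorem all_QIT : T_QIT := Pool.Agent.H55.QT.pf_QIT

theorem all_FNT : T_FNT := pf_FNT Pool.Agent.H70.RW.all_FNU all_FAL all_AVJ all_AVF all_AVR
  all_AVT all_AMN all_LCY Pool.Agent.H59.QT.pf_TLC all_SCX Pool.Agent.H60.RC.pf_LOC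

end Pool.Agent.H68.QT
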