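import Pool.Agent.H70.OQ.Stmt

/-!
# Towers of quantum algorithms and existential quantifiers relative to an oracle: definitions

The quantum query algorithms `QAlg` are those of `Pool.Agent.H6.NB.Stmt`.
-/

set_option autoImplicit false

namespace Pool.Agent.H68.QT

open Pool.Agent.H6.NB

/-- A tower with `j` existential quantifiers. `j = 0`: a quantum query algorithm. `j + 1`: a quantum query
algorithm `A` and towers `sub w v` with `j` quantifiers; besides questions to the oracle the algorithm `A` may
ask the questions: is there a `v` such that `sub w v` accepts? -/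
def Tow : ℕ → Type 1
  | 0 => QAlg
  | j + 1 => QAlg × (List Bool → List Bool → Tow j)

/-- The tower accepts (`b = true`) or rejects (`b = false`). For `j = 0`: the acceptance probability is at
least `2/3` resp. at most `1/3`. For `j + 1`: the same is true for the algorithm `A` and ALL answer functions
`g` which answer the query `0 w` by the value of the oracle at `w`, the query `1 w` by yes if some `sub w v`,
`|v| ≤ m`, accepts, and by no if all `sub w v`, `|v| ≤ m`, reject (in the remaining cases the answer is
arbitrary). -/
def TVal (m : ℕ) : (j : ℕ) → Tow j → (List Bool → Bool) → Bool → Prop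
  | 0, A, O, b => if b then 2 / 3 ≤ QAlg.prob A O else QAlg.prob A O ≤ 1 / 3
  | j + 1, (A, sub), O, b => ∀ g : List Bool → Bool, (∀ w, g (false :: w) = O w) →
      (∀ w, (∃ v : List Bool, v.length ≤ m ∧ TVal m j (sub w v) O true) → g (true :: w) = true) →
      (∀ w, (∀ v : List Bool, v.length ≤ m → TVal m j (sub w v) O false) → g (true :: w) = false) →
      if b then 2 / 3 ≤ A.prob g else A.prob g ≤ 1 / 3

/-- All algorithms of the tower make at most `T` queries, all oracle queries and all strings `w` have length at
most `m`. -/
def TSm (m : ℕ) (T : ℝ) : (j : ℕ) → Tow j → Prop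
  | 0, A => QAlg.Short A m ∧ (QAlg.T A : ℝ) ≤ T
  | j + 1, (A, sub) => A.Short (m + 1) ∧ (A.T : ℝ) ≤ T ∧
      ∀ w v : List Bool, w.length ≤ m → v.length ≤ m → TSm m T j (sub w v)

/-- A tower machine: for every input `x` a tower with `j` quantifiers over strings of length at most
`|x| ^ c + c`, all queries have length at most `|x| ^ c + c`, and every algorithm makes at most
`C * 2 ^ ((1/2 - ε) * |x|)` queries. (No uniformity is required.) -/
structure TMach (j : ℕ) where
  c : ℕ
  C : ℕ
  ε : ℝ
  ε_pos : 0 < ε
  tow : List Bool → Tow j
  small : ∀ x, TSm (x.length ^ c + c) (C * 2 ^ ((1 / 2 - ε) * x.length)) j (tow x)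

/-- The machine is right at the input `x` with respect to the language `L`. -/
def TMach.Right {j : ℕ} (M : TMach j) (O : List Bool → Bool) (L : Set (List Bool)) (x : List Bool) :
    Prop := (x ∈ L → TVal (x.length ^ M.c + M.c) j (M.tow x) O true) ∧
  (x ∉ L → TVal (x.length ^ M.c + M.c) j (M.tow x) O false)

end Pool.Agent.H68.QT
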