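import Pool.Agent.H68.QC.TargetsF
import Pool.Agent.H68.QT.Stmt

/-!
# Towers of quantum algorithms and quantifiers: definitions for the proof
-/

set_option autoImplicit false

namespace Pool.Agent.H68.QT

open Finset Pool.Agent.H6.NB Pool.Agent.H70.OQ Pool.Agent.H70.RK Pool.Agent.H68.QC

/-- The pair is decided by a tree of depth at most `t`. -/
def TrC (V : Type) (t : ℕ) : Cls V := fun V1 V0 =>
  ∃ R : Pool.Agent.H68.AC.DT V, R.depth ≤ t ∧ (∀ y, V1 y ↔ R.eval y = true) ∧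
    ∀ y, V0 y ↔ R.eval y = false

/-- A disjunction of pairs of the class `C`. -/
def OrC (V : Type) (m : ℕ) (C : Cls V) : Cls V := fun V1 V0 =>
  ∃ P1 P0 : List Bool → (V → Bool) → Prop, (∀ v, v.length ≤ m → C (P1 v) (P0 v)) ∧
    (∀ y, V1 y ↔ ∃ v : List Bool, v.length ≤ m ∧ P1 v y) ∧
    ∀ y, V0 y ↔ ∀ v : List Bool, v.length ≤ m → P0 v y

/-- The answer function `g` is compatible with the trees `tr w` (queries `0 w`) and the pairs `P1 w, P0 w`
(queries `1 w`). -/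
def Cmp {V : Type} (m : ℕ) (tr : List Bool → Pool.Agent.H68.AC.DT V)
    (P1 P0 : List Bool → (V → Bool) → Prop) (y : V → Bool) (g : List Bool → Bool) : Prop :=
  ∀ w : List Bool, w.length ≤ m → g (false :: w) = (tr w).eval y ∧
    (P1 w y → g (true :: w) = true) ∧ (P0 w y → g (true :: w) = false)

/-- A quantum algorithm whose queries are answered by trees of depth `t` and pairs of the class `C`. -/
def QgC (V : Type) (m : ℕ) (T : ℝ) (t : ℕ) (C : Cls V) : Cls V := fun V1 V0 =>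
  ∃ (A : QAlg) (tr : List Bool → Pool.Agent.H68.AC.DT V)
    (P1 P0 : List Bool → (V → Bool) → Prop), A.Short (m + 1) ∧ (A.T : ℝ) ≤ T ∧
    (∀ w, (tr w).depth ≤ t) ∧ (∀ w, w.length ≤ m → C (P1 w) (P0 w)) ∧
    (∀ y, V1 y ↔ ∀ g, Cmp m tr P1 P0 y g → 2 / 3 ≤ A.prob g) ∧
    ∀ y, V0 y ↔ ∀ g, Cmp m tr P1 P0 y g → A.prob g ≤ 1 / 3

/-- A quantum algorithm whose queries are answered by trees of depth `t`. -/
def Qg0 (V : Type) (m : ℕ) (T : ℝ) (t : ℕ) : Cls V := fun V1 V0 =>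
  ∃ (A : QAlg) (tr : List Bool → Pool.Agent.H68.AC.DT V), A.Short m ∧ (A.T : ℝ) ≤ T ∧
    (∀ w, (tr w).depth ≤ t) ∧ (∀ y, V1 y ↔ 2 / 3 ≤ A.prob fun w => (tr w).eval y) ∧
    ∀ y, V0 y ↔ (A.prob fun w => (tr w).eval y) ≤ 1 / 3

/-- Towers with `j` quantifiers over trees. -/
def TwC (V : Type) (m : ℕ) (T : ℝ) (t : ℕ) : ℕ → Cls V
  | 0 => Qg0 V (m + 1) T t
  | j + 1 => QgC V m T t (OrC V m (TwC V m T t j))

/-- Towers with `j` quantifiers over trees, whose lowest algorithms have become trees of depth `D`. -/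
def TwD (V : Type) (m : ℕ) (T : ℝ) (t D : ℕ) : ℕ → Cls V
  | 0 => TrC V D
  | j + 1 => QgC V m T t (OrC V m (TwD V m T t D j))

/-- `Φ1`: the tower accepts. -/
def Acc (m j : ℕ) (M : Tow j) (O : List Bool → Bool) : Prop := TVal m j M O true

/-- `Φ0`: the tower rejects. -/
def Rej (m j : ℕ) (M : Tow j) (O : List Bool → Bool) : Prop := TVal m j M O false

/-- The error of the step from quantum algorithms to trees. -/
noncomputable def eL (m j D : ℕ) : ℝ := 2 ^ (2 * (m + 1) * j) * (4 / 2 ^ D)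

/-- The error of the step from disjunctions to trees, `j + 1` quantifiers. -/
noncomputable def eC (m j w : ℕ) : ℝ := 2 ^ (2 * (m + 1) * (j + 1)) * (5 / 2 ^ (w + 1))

end Pool.Agent.H68.QT
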