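import Pool.Agent.H68.QT.Defs

/-!
# Towers of quantum algorithms and quantifiers: module targets
-/

set_option autoImplicit false

namespace Pool.Agent.H68.QT

open Finset Filter Pool.Agent.H6.NB Pool.Agent.H70.OQ Pool.Agent.H70.RK Pool.Agent.H68.QC
open Pool.Agent.H70.RW (SimK yesW inw)
open Pool.Agent.H78.OY (PCorrect)

/-- TWM: monotonicity. -/
def T_TWM : Prop := ∀ (V : Type) (m j t t' : ℕ) (T : ℝ) (V1 V0 : (V → Bool) → Prop), t ≤ t' →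
  TwC V m T t j V1 V0 → TwC V m T t' j V1 V0

/-- TWL: all algorithms at the bottom become trees (restriction at the same level). -/
def T_TWL : Prop := ∀ (V : Type) [Fintype V] [DecidableEq V] (m j t D : ℕ) (T q : ℝ)
  (V1 V0 : (V → Bool) → Prop), 0 ≤ T → 1 ≤ t → 1 ≤ D → 0 < q → q ≤ 1 / 2 →
  2 * 10 ^ 4 * q * (T + 1) ^ 2 * t * D ≤ 1 → TwC V m T t j V1 V0 →
  ∑ l : V → Bool, lw q l * ic (¬ RedL (TwD V m T t D j) V1 V0 l) ≤ eL m j D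

/-- TWR: the lowest disjunctions become trees (one level of the table). -/
def T_TWR : Prop := ∀ (A Z : Type) [Fintype A] [DecidableEq A] [Fintype Z] [DecidableEq Z]
  (m j t D w : ℕ) (T q : ℝ) (L : A → Finset Z) (V1 V0 : (A × Z → Bool) → Prop), 1 ≤ D → t ≤ w →
  D ≤ w → 0 < q → 64 * w * q ≤ 1 → (∀ a, Fintype.card A ≤ (L a).card) →
  TwD (A × Z) m T t D (j + 1) V1 V0 →
  ∑ h : A → Z, ∑ l : A → Bool, uw L h * lw q l * ic (¬ RedC (TwC A m T w j) V1 V0 h l) ≤ eC m j w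

/-- TWF: a tower whose oracle is computed by adaptive questions of level `0`. -/
def T_TWF : Prop := ∀ (V : Type) (mw m j t : ℕ) (T : ℝ) (M : Tow j) (V1 V0 : (V → Bool) → Prop),
  mw ≤ m → TSm mw T j M → Fam V (Acc mw j M) (Rej mw j M) t 0 V1 V0 →
  RedL (TwC V m T t j) V1 V0 fun _ => true

/-- TLC: the value of a tower depends only on short strings. -/
def T_TLC : Prop := ∀ (m j : ℕ) (T : ℝ) (M : Tow j), TSm m T j M →
  Loc m (Acc m j M) ∧ Loc m (Rej m j M)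

/-- BT0: the algorithm which remains at level `0`. -/
def T_BT0 : Prop := ∀ (X : Type) (Y : ℕ → Type) [Fintype X] [DecidableEq X]
  [∀ i, DecidableEq (Y i)] (m t m0 : ℕ) (T : ℝ) (V1 V0 : (Node X Y 0 → Bool) → Prop), 0 ≤ T →
  576 * T ^ 2 * t ≤ m0 → TwC (Node X Y 0) m T t 0 V1 V0 → ¬ Bad true m0 0 V1 V0 (() : Hid X Y 0)

/-- BTA: one quantifier. -/
def T_BTA : Prop := ∀ (X : Type) (Y : ℕ → Type) [Fintype X] [DecidableEq X] [Nonempty X]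
  [∀ i, Fintype (Y i)] [∀ i, DecidableEq (Y i)] [∀ i, Nonempty (Y i)] (m W G' K m0 : ℕ)
  (T q q' : ℝ), 0 ≤ T → 1 ≤ W → 0 < q → q ≤ 1 / 2 → 2 * 10 ^ 4 * q * (T + 1) ^ 2 * W * W ≤ 1 →
  0 < q' → 64 * W * q' ≤ 1 → 1 ≤ G' → 576 * T ^ 2 * W ≤ m0 → 2 * ((m0 : ℝ) + 2) ≤ K * q' →
  TabB X Y true K 0 (G' * Fintype.card (Node X Y 0)) (TwC (Node X Y 1) m T W 1)
    (eL m 1 W + (Fintype.card (Node X Y 0) : ℝ) * Fintype.card (Node X Y 0) * (1 - q) ^ G' +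
      2 * eC m 0 W)

/-- BTB: one more quantifier. -/
def T_BTB : Prop := ∀ (X : Type) (Y : ℕ → Type) [Fintype X] [DecidableEq X] [Nonempty X]
  [∀ i, Fintype (Y i)] [∀ i, DecidableEq (Y i)] [∀ i, Nonempty (Y i)] (m W G' G K i : ℕ)
  (T q q' E : ℝ), 0 ≤ T → 1 ≤ W → 0 < q → q ≤ 1 / 2 →
  2 * 10 ^ 4 * q * (T + 1) ^ 2 * W * W ≤ 1 → 0 < q' → 64 * W * q' ≤ 1 → 1 ≤ G' → 0 ≤ E →
  G * (G' * Fintype.card (Node X Y i)) ≤ Fintype.card (Y i) →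
  TabB X Y true K i (G' * Fintype.card (Node X Y i)) (TwC (Node X Y (i + 1)) m T W (i + 1)) E →
  TabB X Y true K (i + 1) (G' * Fintype.card (Node X Y (i + 1)))
    (TwC (Node X Y (i + 2)) m T W (i + 2))
    (eL m (i + 2) W +
      (Fintype.card (Node X Y (i + 1)) : ℝ) * Fintype.card (Node X Y (i + 1)) * (1 - q) ^ G' +
      (eC m (i + 1) W +
        (Fintype.card (Node X Y i) : ℝ) * (G' * Fintype.card (Node X Y i) : ℕ) * (1 - q') ^ G + E))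

/-- PAT: the parameters for towers with `i0 + 1` quantifiers. -/
def T_PAT : Prop := ∀ (k i0 c C : ℕ) (ε : ℝ), 0 < ε → ∀ᶠ n : ℕ in atTop, ∀ m : ℕ, 1 ≤ m →
  m ≤ n ^ c → ∃ (t w : ℕ → ℕ) (W K g m0 : ℕ) (q2 : ℝ), t k = m ∧ (∀ r ≤ k, 1 ≤ t r) ∧
  (∀ r < k, t (r + 1) ≤ w r ∧ t (r + 1) * w r ≤ t r) ∧ g ≤ n ∧ 1 ≤ W ∧ t 0 ≤ W ∧ 0 < q2 ∧
  q2 ≤ 1 / 2 ∧ 2 * 10 ^ 4 * q2 * (C * 2 ^ ((1 / 2 - ε) * n) + 1 : ℝ) ^ 2 * W * W ≤ 1 ∧
  576 * (C * 2 ^ ((1 / 2 - ε) * n) : ℝ) ^ 2 * W ≤ m0 ∧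
  2 * ((m0 : ℝ) + 2) ≤ K * (1 / (64 * W)) ∧ 100 * K ≤ 2 ^ n ∧
  ∑ r ∈ range k, (erho m (t (r + 1)) (w r) r + elam n (i0 + r) g (1 / (64 * w r))) +
    ∑ i ∈ range (i0 + 1), (eL m (i + 1) W + (2 ^ nod n i) ^ 2 * (1 - q2) ^ 2 ^ (n - g) +
      2 * eC m i W + elam n i g (1 / (64 * W))) ≤ 1 / 100

/-- TJT: the table lemma for towers, at least one quantifier. -/
def T_TJT : Prop := ∀ (k i0 c C : ℕ) (ε : ℝ), 0 < ε → ∀ᶠ n : ℕ in atTop,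
  ∀ (mw m : ℕ) (M : Tow (i0 + 1)) (e : List Bool → (Nn n (i0 + 1 + k) → Bool) → Bool),
  mw ≤ m → 1 ≤ m → m ≤ n ^ c → TSm mw (C * 2 ^ ((1 / 2 - ε) * n)) (i0 + 1) M →
  (∀ w, Adp (Qst (Nn n (i0 + 1 + k)) m k) m (e w)) → ∃ K : ℕ, 100 * K ≤ 2 ^ n ∧
    100 * {H : Hid (Fin n → Bool) (Ys n) (i0 + 1 + k) |
      Bad true K (i0 + 1 + k) (fun y => Acc mw (i0 + 1) M fun w => e w y)
        (fun y => Rej mw (i0 + 1) M fun w => e w y) H}.ncard ≤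
      Fintype.card (Hid (Fin n → Bool) (Ys n) (i0 + 1 + k))

/-- AVT: a tower is not right in most simulations. -/
def T_AVT : Prop := ∀ (k j c C : ℕ) (ε : ℝ), 1 ≤ k → 0 < ε → ∀ᶠ n : ℕ in atTop,
  ∀ (mw m : ℕ) (M : Tow j), mw ≤ m → m ≤ n ^ c → TSm mw (C * 2 ^ ((1 / 2 - ε) * n)) j M →
  ¬ SimK k (nod n (k + j)) m (fun O =>
    (List.replicate n false ∈ hlang (k + j) O → Acc mw j M O) ∧
      (List.replicate n false ∉ hlang (k + j) O → Rej mw j M O)) (fX (k + j) n (nod n (k + j)))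

/-- QIT: the machines of the quantum classical hierarchy are towers. -/
def T_QIT : Prop := ∀ (j : ℕ) (U : QMach j), ∃ M : TMach j, ∀ O x,
  (U.Yes O x → TVal (x.length ^ M.c + M.c) j (M.tow x) O true) ∧
    (U.No O x → TVal (x.length ^ M.c + M.c) j (M.tow x) O false)

/-- FNT: the final theorem. -/
def T_FNT : Prop := ∀ k : ℕ, 1 ≤ k → ∀ (V : ℕ → Machine k) (j a : ℕ → ℕ) (U : ∀ i, QMach (j i))
  (M : ∀ i, TMach (a i)) (R : ℕ → List Bool → Set QAlg),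
  (∀ i, ∃ (c C : ℕ) (ε : ℝ), 0 < ε ∧ ∀ x : List Bool, ∀ A ∈ R i x, A.Short (x.length ^ c + c) ∧
    (A.T : ℝ) ≤ C * 2 ^ ((1 / 2 - ε) * x.length)) →
  ∃ O : List Bool → Bool,
    (∀ i x, (x ∈ (V i).lang O → yesW O (inw (V i).c i x) = 1) ∧
      (x ∉ (V i).lang O → yesW O (inw (V i).c i x) = 0)) ∧
    (∀ l, 1 ≤ l → OneSpecialP l O) ∧
    (∀ i m, ∃ n ≥ m, (∃ r, n = 2 ^ r) ∧
      ¬ (U i).Right O (hlang (k + j i) O) (List.replicate n false)) ∧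
    (∀ i m, ∃ n ≥ m, (∃ r, n = 2 ^ r) ∧
      ¬ (M i).Right O (hlang (k + a i) O) (List.replicate n false)) ∧
    (∀ i b m, j i = b + 1 → ∃ n ≥ m,
      ¬ (U i).Right O (hlang (k + b) O)ᶜ (List.replicate n false)) ∧
    ∀ i m, ∃ n ≥ m, ¬ PCorrect (R i (List.replicate n false)) O (hlang k O)ᶜ (List.replicate n false)

end Pool.Agent.H68.QT
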